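import Mathlib

/-!
# The largest gap of the Bose Sidon sets (MP_dc0ef5_nt)

Author: helper34.

The gaps of a Sidon set are distinct; so a set with `k` elements in `ZMod M` has a gap of length at
least `M / k + (k - 1) / 2`.
-/

set_option autoImplicit false

open Classical

namespace Pool.Agent.Results.MP_dc0ef5_nt.BoseGap

/-- the distance from `a` to the next element of `A` in the cyclic order -/
noncomputable def gap {M : ℕ} (A : Set (ZMod M)) (a : ZMod M) : ℕ :=
  sInf {d : ℕ | 0 < d ∧ a + (d : ZMod M) ∈ A}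

/-- the largest modular gap `g(A)` -/
noncomputable def g {M : ℕ} (A : Set (ZMod M)) : ℕ := sSup (gap A '' A)

/-- the least value of `g` on the affine images of `A` -/
noncomputable def gstar {M : ℕ} (A : Set (ZMod M)) : ℕ :=
  sInf {n : ℕ | ∃ (d : (ZMod M)ˣ) (s : ZMod M), n = g ((fun x => (d : ZMod M) * x + s) '' A)}

/-- the Bose set of the generator `θ` of the multiplicative group of `K` -/
def Bose (F K : Type) [Field F] [Fintype F] [Field K] [Algebra F K] (θ : Kˣ) :
    Set (ZMod (Fintype.card F ^ 2 - 1)) :=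
  {a | ∃ v : F, (θ : K) ^ a.val = (θ : K) + algebraMap F K v}

theorem sum_lower (T : Finset ℕ) : T.card * (T.card - 1) ≤ 2 * ∑ x ∈ T, x := by
  induction h : T.card generalizing T with
  | zero => simp
  | succ k ih =>
    have hne : T.Nonempty := Finset.card_pos.1 (by omega)
    have hm := T.max'_mem hne
    have hc : (T.erase (T.max' hne)).card = k := by rw [Finset.card_erase_of_mem hm]; omega
    have h1 := ih _ hc
    have h2 : T.card ≤ T.max' hne + 1 := by
      have : T ⊆ Finset.range (T.max' hne + 1) := fun x hx =>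
        Finset.mem_range.2 (Nat.lt_succ_of_le (T.le_max' x hx))
      simpa using Finset.card_le_card this
    have h3 := Finset.add_sum_erase T (fun x => x) hm
    rw [← h3]
    rw [h] at h2
    have h4 : (k + 1) * (k + 1 - 1) = k * (k - 1) + 2 * k := by
      rcases k with _ | k
      · rfl
      · simp only [Nat.add_sub_cancel]; ring
    rw [h4, mul_add]
    omega

section
variable {M : ℕ} [NeZero M] (A : Set (ZMod M))

theorem gap_spec {a : ZMod M} (ha : a ∈ A) : (0 < gap A a ∧ a + (gap A a : ZMod M) ∈ A) ∧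
    gap A a ≤ M := by
  have hm : M ∈ {d : ℕ | 0 < d ∧ a + (d : ZMod M) ∈ A} := by
    refine ⟨Nat.pos_of_ne_zero (NeZero.ne M), ?_⟩
    rw [ZMod.natCast_self, add_zero]
    exact ha
  exact ⟨Nat.sInf_mem ⟨M, hm⟩, Nat.sInf_le hm⟩

omit [NeZero M] in
theorem gap_le {a : ZMod M} {d : ℕ} (h0 : 0 < d) (h : a + (d : ZMod M) ∈ A) : gap A a ≤ d :=
  Nat.sInf_le ⟨h0, h⟩

theorem gap_le_g {a : ZMod M} (ha : a ∈ A) : gap A a ≤ g A := by
  refine le_csSup ⟨M, ?_⟩ ⟨a, ha, rfl⟩
  rintro _ ⟨b, hb, rfl⟩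
  exact (gap_spec A hb).2

theorem gap_inj (hS : ∀ a ∈ A, ∀ b ∈ A, ∀ c ∈ A, ∀ d ∈ A, a + b = c + d → a = c ∨ a = d) :
    Set.InjOn (gap A) A := by
  intro a ha b hb hab
  obtain ⟨⟨h1, h2⟩, h3⟩ := gap_spec A ha
  obtain ⟨⟨h4, h5⟩, h6⟩ := gap_spec A hb
  rcases hS a ha _ h5 b hb _ h2 (by rw [hab]; ring) with h | h
  · exact h
  · by_contra hne
    have hz : ((gap A a : ℕ) : ZMod M) = 0 := by
      have : a + ((gap A a : ℕ) : ZMod M) = a + 0 := by rw [add_zero]; exact h.symm
      exact add_left_cancel this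
    have hd : M ∣ gap A a := (ZMod.natCast_eq_zero_iff _ _).1 hz
    have hge := Nat.le_of_dvd h1 hd
    have ht : gap A a ≤ (b - a).val := by
      refine gap_le A ?_ ?_
      · rw [Nat.pos_iff_ne_zero]
        intro h0
        rw [ZMod.val_eq_zero] at h0
        exact hne (sub_eq_zero.1 h0).symm
      · rw [ZMod.natCast_zmod_val]
        rw [add_sub_cancel]
        exact hb
    have := ZMod.val_lt (b - a)
    omega

theorem cover (hne : A.Nonempty) : M ≤ ∑ a ∈ A.toFinset, gap A a := by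
  have hsub : (Finset.univ : Finset (ZMod M)) ⊆ A.toFinset.biUnion
      (fun a => (Finset.range (gap A a)).image (fun t : ℕ => a + (t : ZMod M))) := by
    intro x _
    obtain ⟨a0, ha0⟩ := hne
    have hex : ∃ t : ℕ, x - (t : ZMod M) ∈ A := ⟨(x - a0).val, by
      rw [ZMod.natCast_zmod_val, sub_sub_cancel]; exact ha0⟩
    have h1 := Nat.find_spec hex
    have h2 : ∀ m < Nat.find hex, x - (m : ZMod M) ∉ A := fun m hm => Nat.find_min hex hm
    rw [Finset.mem_biUnion]
    refine ⟨x - (Nat.find hex : ZMod M), Set.mem_toFinset.2 h1, ?_⟩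
    rw [Finset.mem_image]
    refine ⟨Nat.find hex, ?_, by ring⟩
    rw [Finset.mem_range]
    by_contra hlt
    obtain ⟨⟨h3, h4⟩, -⟩ := gap_spec A h1
    refine h2 (Nat.find hex - gap A (x - (Nat.find hex : ZMod M))) (by omega) ?_
    rw [Nat.cast_sub (by omega)]
    convert h4 using 1
    ring
  have h1 := Finset.card_le_card hsub
  rw [Finset.card_univ, ZMod.card] at h1
  refine h1.trans (Finset.card_biUnion_le.trans (Finset.sum_le_sum fun a _ => ?_))
  exact Finset.card_image_le.trans (by rw [Finset.card_range])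

theorem key (hne : A.Nonempty)
    (hS : ∀ a ∈ A, ∀ b ∈ A, ∀ c ∈ A, ∀ d ∈ A, a + b = c + d → a = c ∨ a = d) :
    2 * M + A.toFinset.card * (A.toFinset.card - 1) ≤ 2 * (A.toFinset.card * g A) := by
  have h1 := cover A hne
  have hinj : Set.InjOn (fun a => g A - gap A a) (A.toFinset : Set (ZMod M)) := by
    intro a ha b hb hab
    rw [Set.coe_toFinset] at ha hb
    have h2 := gap_le_g A ha
    have h3 := gap_le_g A hb
    simp only at hab
    exact gap_inj A hS ha hb (by omega)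
  have h2 := sum_lower (A.toFinset.image (fun a => g A - gap A a))
  rw [Finset.card_image_of_injOn hinj, Finset.sum_image hinj] at h2
  have h3 : ∑ a ∈ A.toFinset, (g A - gap A a) + ∑ a ∈ A.toFinset, gap A a =
      A.toFinset.card * g A := by
    rw [← Finset.sum_add_distrib, Finset.sum_congr rfl (fun a ha => Nat.sub_add_cancel
      (gap_le_g A (Set.mem_toFinset.1 ha)))]
    simp
  omega

end

theorem bound {M : ℕ} [NeZero M] (A : Set (ZMod M)) (hne : A.Nonempty)
    (hS : ∀ a ∈ A, ∀ b ∈ A, ∀ c ∈ A, ∀ d ∈ A, a + b = c + d → a = c ∨ a = d) (q : ℕ) (hq : 3 ≤ q)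
    (hM : M = q ^ 2 - 1) (hk : A.toFinset.card ≤ q) : 3 * q ≤ 2 * g A + 1 := by
  have h := key A hne hS
  have hpos : 1 ≤ A.toFinset.card := by
    obtain ⟨a, ha⟩ := hne
    exact Finset.card_pos.2 ⟨a, Set.mem_toFinset.2 ha⟩
  generalize A.toFinset.card = k at *
  generalize g A = G at *
  by_contra hlt
  push Not at hlt
  obtain ⟨k, rfl⟩ : ∃ k', k = k' + 1 := ⟨k - 1, by omega⟩
  rw [Nat.add_sub_cancel] at h
  have hM' : M + 1 = q ^ 2 := by
    have : 1 ≤ q ^ 2 := Nat.one_le_pow _ _ (by omega)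
    omega
  have hM2 : (M : ℤ) = (q : ℤ) ^ 2 - 1 := by
    have : ((M + 1 : ℕ) : ℤ) = ((q ^ 2 : ℕ) : ℤ) := by rw [hM']
    push_cast at this
    linarith
  have h' : 2 * (M : ℤ) + ((k : ℤ) + 1) * k ≤ 2 * (((k : ℤ) + 1) * G) := by exact_mod_cast h
  have hlt' : 2 * (G : ℤ) + 1 + 1 ≤ 3 * q := by exact_mod_cast hlt
  have hk' : (k : ℤ) + 1 ≤ q := by exact_mod_cast hk
  have hq' : (3 : ℤ) ≤ q := by exact_mod_cast hq
  have hk0 : (0 : ℤ) ≤ k := by positivity
  rw [hM2] at h'
  nlinarith [mul_nonneg (by linarith : (0 : ℤ) ≤ (k : ℤ) + 1) (by linarith : (0 : ℤ) ≤ 3 * q - 2 - 2 * (G : ℤ)),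
    mul_nonneg (by linarith : (0 : ℤ) ≤ (q : ℤ) - (k + 1)) (by linarith : (0 : ℤ) ≤ 2 * (q : ℤ) - 1 - (k + 1))]

section
variable (F K : Type) [Field F] [Fintype F] [Field K] [Algebra F K] (θ : Kˣ)

theorem theta_not (hθ : orderOf θ = Fintype.card F ^ 2 - 1) (t : F) :
    (θ : K) ≠ algebraMap F K t := by
  intro h
  have hq : 2 ≤ Fintype.card F := Fintype.one_lt_card
  have ht : t ≠ 0 := by
    rintro rfl
    rw [map_zero] at h
    exact θ.ne_zero h
  have h1 : θ ^ (Fintype.card F - 1) = 1 := by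
    apply Units.ext
    rw [Units.val_pow_eq_pow_val, h, ← map_pow, FiniteField.pow_card_sub_one_eq_one t ht, map_one,
      Units.val_one]
  have h2 := orderOf_dvd_of_pow_eq_one h1
  have h3 := Nat.le_of_dvd (by omega) h2
  rw [hθ] at h3
  have h4 : Fintype.card F * 2 ≤ Fintype.card F ^ 2 := by rw [sq]; exact Nat.mul_le_mul le_rfl hq
  omega

theorem pow_inj (hθ : orderOf θ = Fintype.card F ^ 2 - 1) [NeZero (Fintype.card F ^ 2 - 1)]
    {a b : ZMod (Fintype.card F ^ 2 - 1)} (h : (θ : K) ^ a.val = (θ : K) ^ b.val) : a = b := by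
  have h1 : θ ^ a.val = θ ^ b.val := by
    apply Units.ext
    rw [Units.val_pow_eq_pow_val, Units.val_pow_eq_pow_val, h]
  have h2 := (pow_inj_mod).1 h1
  rw [hθ, Nat.mod_eq_of_lt (ZMod.val_lt a), Nat.mod_eq_of_lt (ZMod.val_lt b)] at h2
  exact ZMod.val_injective _ h2

theorem pow_add' (hθ : orderOf θ = Fintype.card F ^ 2 - 1) [NeZero (Fintype.card F ^ 2 - 1)]
    (a b : ZMod (Fintype.card F ^ 2 - 1)) :
    (θ : K) ^ (a + b).val = (θ : K) ^ a.val * (θ : K) ^ b.val := by
  rw [ZMod.val_add, ← pow_add, ← Units.val_pow_eq_pow_val, ← Units.val_pow_eq_pow_val]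
  congr 1
  have e := pow_mod_orderOf θ (a.val + b.val)
  rw [hθ] at e
  exact e

theorem bose_sidon (hθ : orderOf θ = Fintype.card F ^ 2 - 1) [NeZero (Fintype.card F ^ 2 - 1)] :
    ∀ a ∈ Bose F K θ, ∀ b ∈ Bose F K θ, ∀ c ∈ Bose F K θ, ∀ d ∈ Bose F K θ,
      a + b = c + d → a = c ∨ a = d := by
  rintro a ⟨u, hu⟩ b ⟨v, hv⟩ c ⟨w, hw⟩ d ⟨x, hx⟩ h
  have h1 : ((θ : K) + algebraMap F K u) * ((θ : K) + algebraMap F K v) =
      ((θ : K) + algebraMap F K w) * ((θ : K) + algebraMap F K x) := by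
    rw [← hu, ← hv, ← hw, ← hx, ← pow_add' F K θ hθ, ← pow_add' F K θ hθ, h]
  have h2 : (θ : K) * algebraMap F K (u + v - w - x) = algebraMap F K (w * x - u * v) := by
    simp only [map_add, map_sub, map_mul]
    linear_combination h1
  have h3 : u + v - w - x = 0 := by
    by_contra hne
    refine theta_not F K θ hθ ((w * x - u * v) / (u + v - w - x)) ?_
    have hne' : algebraMap F K (u + v - w - x) ≠ 0 := by
      intro h0
      exact hne ((map_eq_zero (algebraMap F K)).1 h0)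
    rw [map_div₀, eq_div_iff hne']
    exact h2
  have h4 : w * x - u * v = 0 := by
    rw [h3, map_zero, mul_zero] at h2
    exact (map_eq_zero (algebraMap F K)).1 h2.symm
  have h5 : (u - w) * (u - x) = 0 := by
    linear_combination u * h3 + h4
  rcases mul_eq_zero.1 h5 with h6 | h6
  · left
    apply pow_inj F K θ hθ
    rw [hu, hw, sub_eq_zero.1 h6]
  · right
    apply pow_inj F K θ hθ
    rw [hu, hx, sub_eq_zero.1 h6]

theorem bose_card (hθ : orderOf θ = Fintype.card F ^ 2 - 1) [NeZero (Fintype.card F ^ 2 - 1)] :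
    (Bose F K θ).toFinset.card ≤ Fintype.card F := by
  have hch : ∀ a : ZMod (Fintype.card F ^ 2 - 1), ∃ v : F, a ∈ Bose F K θ →
      (θ : K) ^ a.val = (θ : K) + algebraMap F K v := by
    intro a
    by_cases ha : a ∈ Bose F K θ
    · obtain ⟨v, hv⟩ := ha
      exact ⟨v, fun _ => hv⟩
    · exact ⟨0, fun h => absurd h ha⟩
  choose f hf using hch
  refine (Finset.card_le_card_of_injOn (t := Finset.univ) f (fun _ _ => Finset.mem_univ _) ?_).trans
    (le_of_eq Finset.card_univ)
  intro a ha b hb hab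
  rw [Set.coe_toFinset] at ha hb
  apply pow_inj F K θ hθ
  rw [hf a ha, hf b hb, hab]

theorem bose_nonempty (hq : 3 ≤ Fintype.card F) : (Bose F K θ).Nonempty := by
  refine ⟨1, 0, ?_⟩
  have h : Fact (1 < Fintype.card F ^ 2 - 1) := ⟨by
    have : 3 * 3 ≤ Fintype.card F ^ 2 := by rw [sq]; exact Nat.mul_le_mul hq hq
    omega⟩
  rw [ZMod.val_one, pow_one, map_zero, add_zero]

end

/-- **For every prime power `q ≥ 3` (the number of elements of the field `F`) and every generator of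
the multiplicative group of the field with `q ^ 2` elements, all affine images of the Bose set have a
modular gap of length at least `(3 q - 1) / 2`.** -/
theorem result (F K : Type) [Field F] [Fintype F] [Field K] [Fintype K] [Algebra F K]
    (hK : Fintype.card K = Fintype.card F ^ 2) (hq : 3 ≤ Fintype.card F) (θ : Kˣ)
    (hθ : ∀ x : Kˣ, x ∈ Subgroup.zpowers θ) :
    3 * Fintype.card F ≤ 2 * gstar (Bose F K θ) + 1 := by
  have hθ' : orderOf θ = Fintype.card F ^ 2 - 1 := by
    rw [orderOf_eq_card_of_forall_mem_zpowers hθ, Nat.card_eq_fintype_card, Fintype.card_units, hK]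
  have h9 : 3 * 3 ≤ Fintype.card F ^ 2 := by rw [sq]; exact Nat.mul_le_mul hq hq
  have hNZ : NeZero (Fintype.card F ^ 2 - 1) := ⟨by omega⟩
  have hmem : gstar (Bose F K θ) ∈ {n : ℕ | ∃ (d : (ZMod (Fintype.card F ^ 2 - 1))ˣ)
      (s : ZMod (Fintype.card F ^ 2 - 1)), n = g ((fun x => (d : ZMod _) * x + s) '' Bose F K θ)} :=
    Nat.sInf_mem ⟨_, 1, 0, rfl⟩
  obtain ⟨d, s, e⟩ := hmem
  rw [e]
  have hinj : Function.Injective (fun x : ZMod (Fintype.card F ^ 2 - 1) => (d : ZMod _) * x + s) := by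
    intro x y hxy
    simp only at hxy
    exact d.isUnit.mul_left_cancel (add_right_cancel hxy)
  refine bound _ ((bose_nonempty F K θ hq).image _) ?_ (Fintype.card F) hq rfl ?_
  · rintro _ ⟨a, ha, rfl⟩ _ ⟨b, hb, rfl⟩ _ ⟨c, hc, rfl⟩ _ ⟨e, he, rfl⟩ h
    simp only at h ⊢
    have h1 : a + b = c + e := by
      apply d.isUnit.mul_left_cancel
      linear_combination h
    rcases bose_sidon F K θ hθ' a ha b hb c hc e he h1 with h2 | h2
    · left; rw [h2]
    · right; rw [h2]
  · rw [Set.toFinset_image]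
    exact Finset.card_image_le.trans (bose_card F K θ hθ')

end Pool.Agent.Results.MP_dc0ef5_nt.BoseGap
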