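import Pool.Agent.Results.MP_dc0ef5_nt.BoseGap

/-!
# The largest gap of the Singer Sidon sets (MP_dc0ef5_nt)

Author: helper34.

The gaps of a Sidon set are distinct; see `BoseGap`.
-/

set_option autoImplicit false

open Classical

namespace Pool.Agent.Results.MP_dc0ef5_nt.SingerGap

open Pool.Agent.Results.MP_dc0ef5_nt.BoseGap (gap g gstar key)

/-- the Singer set of the generator `η` of the multiplicative group of `K` -/
def Singer (F K : Type) [Field F] [Fintype F] [Field K] [Algebra F K] (η : Kˣ) :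
    Set (ZMod (Fintype.card F ^ 2 + Fintype.card F + 1)) :=
  {a | ∃ u v : F, (η : K) ^ a.val = algebraMap F K u * (η : K) + algebraMap F K v}

section
variable (F K : Type) [Field F] [Fintype F] [Field K] [Fintype K] [Algebra F K] (η : Kˣ)

theorem not_small (hK : Fintype.card K = Fintype.card F ^ 3) (hη : ∀ x : Kˣ, x ∈ Subgroup.zpowers η)
    (h : ∀ n : ℕ, ∃ x y : F, (η : K) ^ n = algebraMap F K x + algebraMap F K y * (η : K)) : False := by
  have hs : Function.Surjective
      (fun p : F × F => algebraMap F K p.1 + algebraMap F K p.2 * (η : K)) := by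
    intro z
    by_cases hz : z = 0
    · exact ⟨(0, 0), by simp [hz]⟩
    · have h1 := hη (Units.mk0 z hz)
      rw [← mem_powers_iff_mem_zpowers] at h1
      obtain ⟨n, hn⟩ := h1
      obtain ⟨x, y, hxy⟩ := h n
      refine ⟨(x, y), ?_⟩
      simp only
      rw [← hxy, ← Units.val_pow_eq_pow_val]
      have hn' : η ^ n = Units.mk0 z hz := hn
      rw [hn', Units.val_mk0]
  have h1 := Fintype.card_le_of_surjective _ hs
  rw [Fintype.card_prod, hK] at h1
  have hq : 2 ≤ Fintype.card F := Fintype.one_lt_card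
  have h2 : Fintype.card F ^ 3 = Fintype.card F * Fintype.card F * Fintype.card F := by ring
  rw [h2] at h1
  have h3 : Fintype.card F * Fintype.card F * 2 ≤ Fintype.card F * Fintype.card F * Fintype.card F :=
    Nat.mul_le_mul le_rfl hq
  have h4 : 0 < Fintype.card F * Fintype.card F := by positivity
  omega

theorem indep (hK : Fintype.card K = Fintype.card F ^ 3) (hη : ∀ x : Kˣ, x ∈ Subgroup.zpowers η)
    (r s t : F) (h : algebraMap F K r + algebraMap F K s * (η : K) +
      algebraMap F K t * (η : K) ^ 2 = 0) : r = 0 ∧ s = 0 ∧ t = 0 := by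
  have ht : t = 0 := by
    by_contra ht
    have ht' : algebraMap F K t ≠ 0 := fun h0 => ht ((map_eq_zero (algebraMap F K)).1 h0)
    refine not_small F K η hK hη fun n => ?_
    induction n with
    | zero => exact ⟨1, 0, by simp⟩
    | succ n ih =>
      obtain ⟨x, y, hxy⟩ := ih
      refine ⟨-(y * r / t), x - y * s / t, ?_⟩
      rw [pow_succ, hxy]
      simp only [map_neg, map_sub, map_div₀, map_mul]
      field_simp
      linear_combination (algebraMap F K y) * h
  subst ht
  have hs : s = 0 := by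
    by_contra hs
    have hs' : algebraMap F K s ≠ 0 := fun h0 => hs ((map_eq_zero (algebraMap F K)).1 h0)
    refine not_small F K η hK hη fun n => ?_
    refine ⟨(-(r / s)) ^ n, 0, ?_⟩
    have e : (η : K) = algebraMap F K (-(r / s)) := by
      rw [map_neg, map_div₀]
      field_simp
      rw [map_zero] at h
      linear_combination h
    rw [map_zero, zero_mul, add_zero, map_pow, ← e]
  subst hs
  refine ⟨?_, rfl, rfl⟩
  simpa using h

theorem order (hK : Fintype.card K = Fintype.card F ^ 3) (hη : ∀ x : Kˣ, x ∈ Subgroup.zpowers η) :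
    orderOf η = (Fintype.card F ^ 2 + Fintype.card F + 1) * (Fintype.card F - 1) := by
  rw [orderOf_eq_card_of_forall_mem_zpowers hη, Nat.card_eq_fintype_card, Fintype.card_units, hK]
  have hq : 2 ≤ Fintype.card F := Fintype.one_lt_card
  obtain ⟨m, hm⟩ : ∃ m, Fintype.card F = m + 1 := ⟨Fintype.card F - 1, by omega⟩
  rw [hm, Nat.add_sub_cancel]
  have : (m + 1) ^ 3 = ((m + 1) ^ 2 + (m + 1) + 1) * m + 1 := by ring
  rw [this, Nat.add_sub_cancel]

theorem inF (x : Kˣ) (hx : x ^ (Fintype.card F - 1) = 1) :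
    ∃ y : Fˣ, (x : K) = algebraMap F K (y : F) := by
  have hq : 2 ≤ Fintype.card F := Fintype.one_lt_card
  have hinj : Function.Injective (Units.map (algebraMap F K : F →* K)) :=
    Units.map_injective (algebraMap F K).injective
  have h1 : (Finset.univ.image (Units.map (algebraMap F K : F →* K))) ⊆
      Finset.univ.filter (fun z : Kˣ => z ^ (Fintype.card F - 1) = 1) := by
    intro z hz
    obtain ⟨y, -, rfl⟩ := Finset.mem_image.1 hz
    refine Finset.mem_filter.2 ⟨Finset.mem_univ _, ?_⟩
    rw [← map_pow]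
    have : y ^ (Fintype.card F - 1) = 1 := by
      apply Units.ext
      rw [Units.val_pow_eq_pow_val, FiniteField.pow_card_sub_one_eq_one _ y.ne_zero, Units.val_one]
    rw [this, map_one]
  have h2 : (Finset.univ.filter (fun z : Kˣ => z ^ (Fintype.card F - 1) = 1)).card ≤
      (Finset.univ.image (Units.map (algebraMap F K : F →* K))).card := by
    rw [Finset.card_image_of_injective _ hinj, Finset.card_univ, Fintype.card_units]
    exact IsCyclic.card_pow_eq_one_le (by omega)
  have h3 := Finset.eq_of_subset_of_card_le h1 h2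
  have h4 : x ∈ Finset.univ.filter (fun z : Kˣ => z ^ (Fintype.card F - 1) = 1) :=
    Finset.mem_filter.2 ⟨Finset.mem_univ _, hx⟩
  rw [← h3] at h4
  obtain ⟨y, -, hy⟩ := Finset.mem_image.1 h4
  exact ⟨y, by rw [← hy]; rfl⟩

theorem prop1 (hK : Fintype.card K = Fintype.card F ^ 3) (hη : ∀ x : Kˣ, x ∈ Subgroup.zpowers η)
    (m m' : ℕ) (h : m ≡ m' [MOD Fintype.card F ^ 2 + Fintype.card F + 1]) :
    ∃ y : Fˣ, (η : K) ^ m = algebraMap F K (y : F) * (η : K) ^ m' := by
  have h1 : η ^ (m * (Fintype.card F - 1)) = η ^ (m' * (Fintype.card F - 1)) := by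
    rw [pow_eq_pow_iff_modEq, order F K η hK hη]
    exact Nat.ModEq.mul_right' _ h
  obtain ⟨y, hy⟩ := inF F K (η ^ m * (η ^ m')⁻¹) (by
    rw [mul_pow, inv_pow, ← pow_mul, ← pow_mul, h1, mul_inv_cancel])
  refine ⟨y, ?_⟩
  rw [← hy, ← Units.val_pow_eq_pow_val, ← Units.val_pow_eq_pow_val, ← Units.val_mul,
    inv_mul_cancel_right]

theorem prop2 (hK : Fintype.card K = Fintype.card F ^ 3) (hη : ∀ x : Kˣ, x ∈ Subgroup.zpowers η)
    (m m' : ℕ) (y : F) (hy : y ≠ 0) (h : (η : K) ^ m = algebraMap F K y * (η : K) ^ m') :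
    m ≡ m' [MOD Fintype.card F ^ 2 + Fintype.card F + 1] := by
  have hq : 2 ≤ Fintype.card F := Fintype.one_lt_card
  have h1 : η ^ (m * (Fintype.card F - 1)) = η ^ (m' * (Fintype.card F - 1)) := by
    apply Units.ext
    rw [Units.val_pow_eq_pow_val, Units.val_pow_eq_pow_val, pow_mul, pow_mul, h, mul_pow, ← map_pow,
      FiniteField.pow_card_sub_one_eq_one _ hy, map_one, one_mul]
  rw [pow_eq_pow_iff_modEq, order F K η hK hη] at h1
  exact Nat.ModEq.mul_right_cancel' (by omega) h1

/-- proportional elements have the same index -/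
theorem same (hK : Fintype.card K = Fintype.card F ^ 3) (hη : ∀ x : Kˣ, x ∈ Subgroup.zpowers η)
    {a c : ZMod (Fintype.card F ^ 2 + Fintype.card F + 1)} {u v w z : F}
    (ha : (η : K) ^ a.val = algebraMap F K u * (η : K) + algebraMap F K v)
    (hc : (η : K) ^ c.val = algebraMap F K w * (η : K) + algebraMap F K z)
    (h : u * z = v * w) : a = c := by
  have hne : ∀ n : ℕ, (η : K) ^ n ≠ 0 := fun n => pow_ne_zero n η.ne_zero
  have key2 : ∀ y : F, (η : K) ^ a.val = algebraMap F K y * (η : K) ^ c.val → a = c := by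
    intro y hy
    have hy0 : y ≠ 0 := by
      rintro rfl
      rw [map_zero, zero_mul] at hy
      exact hne _ hy
    have h1 := prop2 F K η hK hη _ _ y hy0 hy
    apply ZMod.val_injective
    have h2 := ZMod.val_lt a
    have h3 := ZMod.val_lt c
    exact Nat.ModEq.eq_of_lt_of_lt h1 h2 h3
  by_cases hw : w = 0
  · have hz : z ≠ 0 := by
      rintro rfl
      rw [hw, map_zero, zero_mul, zero_add] at hc
      exact hne _ hc
    have hu : u = 0 := by
      rw [hw, mul_zero] at h
      exact (mul_eq_zero.1 h).resolve_right hz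
    refine key2 (v / z) ?_
    have hz' : algebraMap F K z ≠ 0 := fun h0 => hz ((map_eq_zero (algebraMap F K)).1 h0)
    rw [ha, hc, hw, hu, map_div₀, map_zero]
    field_simp
    ring
  · refine key2 (u / w) ?_
    have hw' : algebraMap F K w ≠ 0 := fun h0 => hw ((map_eq_zero (algebraMap F K)).1 h0)
    have h' : algebraMap F K u * algebraMap F K z = algebraMap F K v * algebraMap F K w := by
      rw [← map_mul, ← map_mul, h]
    rw [ha, hc, map_div₀]
    field_simp
    linear_combination -h'

theorem singer_sidon (hK : Fintype.card K = Fintype.card F ^ 3)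
    (hη : ∀ x : Kˣ, x ∈ Subgroup.zpowers η) :
    ∀ a ∈ Singer F K η, ∀ b ∈ Singer F K η, ∀ c ∈ Singer F K η, ∀ d ∈ Singer F K η,
      a + b = c + d → a = c ∨ a = d := by
  rintro a ⟨u, v, ha⟩ b ⟨u', v', hb⟩ c ⟨w, z, hc⟩ d ⟨w', z', hd⟩ h
  have hm : a.val + b.val ≡ c.val + d.val [MOD Fintype.card F ^ 2 + Fintype.card F + 1] := by
    have h1 := congrArg ZMod.val h
    rw [ZMod.val_add, ZMod.val_add] at h1
    exact h1
  obtain ⟨y, hy⟩ := prop1 F K η hK hη _ _ hm
  rw [pow_add, pow_add, ha, hb, hc, hd] at hy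
  obtain ⟨e0, e1, e2⟩ := indep F K η hK hη (v * v' - y * (z * z'))
    (u * v' + v * u' - y * (w * z' + z * w')) (u * u' - y * (w * w')) (by
      simp only [map_sub, map_mul, map_add]
      linear_combination hy)
  have hp : (y : F) * ((z * u - w * v) * (z' * u - w' * v)) = 0 := by
    linear_combination (-u ^ 2) * e0 + (u * v) * e1 + (-v ^ 2) * e2
  rcases mul_eq_zero.1 ((mul_eq_zero.1 hp).resolve_left y.ne_zero) with h1 | h1
  · left
    exact same F K η hK hη ha hc (by linear_combination h1)
  · right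
    exact same F K η hK hη ha hd (by linear_combination h1)

theorem singer_card (hK : Fintype.card K = Fintype.card F ^ 3)
    (hη : ∀ x : Kˣ, x ∈ Subgroup.zpowers η) :
    (Singer F K η).toFinset.card ≤ Fintype.card F + 1 := by
  have hch : ∀ a : ZMod (Fintype.card F ^ 2 + Fintype.card F + 1), ∃ p : F × F, a ∈ Singer F K η →
      (η : K) ^ a.val = algebraMap F K p.1 * (η : K) + algebraMap F K p.2 := by
    intro a
    by_cases ha : a ∈ Singer F K η
    · obtain ⟨u, v, hv⟩ := ha
      exact ⟨(u, v), fun _ => hv⟩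
    · exact ⟨(0, 0), fun h => absurd h ha⟩
  choose f hf using hch
  have h1 : (Singer F K η).toFinset.card ≤ (Finset.univ : Finset (Option F)).card := by
    refine Finset.card_le_card_of_injOn
      (fun a => if (f a).1 = 0 then none else some ((f a).2 / (f a).1))
      (fun _ _ => Finset.mem_univ _) ?_
    intro a ha b hb hab
    rw [Set.coe_toFinset] at ha hb
    apply same F K η hK hη (hf a ha) (hf b hb)
    simp only at hab
    by_cases h1 : (f a).1 = 0
    · by_cases h2 : (f b).1 = 0
      · rw [h1, h2]; ring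
      · rw [if_pos h1, if_neg h2] at hab
        exact absurd hab (by simp)
    · by_cases h2 : (f b).1 = 0
      · rw [if_neg h1, if_pos h2] at hab
        exact absurd hab (by simp)
      · rw [if_neg h1, if_neg h2] at hab
        have h3 := Option.some.inj hab
        rw [div_eq_div_iff h1 h2] at h3
        linear_combination -h3
  rwa [Finset.card_univ, Fintype.card_option] at h1

theorem singer_nonempty : (Singer F K η).Nonempty := by
  refine ⟨0, 0, 1, ?_⟩
  rw [ZMod.val_zero, pow_zero, map_zero, map_one, zero_mul, zero_add]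

end

theorem bound {M : ℕ} [NeZero M] (A : Set (ZMod M)) (hne : A.Nonempty)
    (hS : ∀ a ∈ A, ∀ b ∈ A, ∀ c ∈ A, ∀ d ∈ A, a + b = c + d → a = c ∨ a = d) (q : ℕ) (hq : 2 ≤ q)
    (hM : M = q ^ 2 + q + 1) (hk : A.toFinset.card ≤ q + 1) : 3 * q + 1 ≤ 2 * g A := by
  have h := key A hne hS
  have hpos : 1 ≤ A.toFinset.card := by
    obtain ⟨a, ha⟩ := hne
    exact Finset.card_pos.2 ⟨a, Set.mem_toFinset.2 ha⟩
  generalize A.toFinset.card = k at *
  generalize g A = G at *
  by_contra hlt
  push Not at hlt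
  obtain ⟨k, rfl⟩ : ∃ k', k = k' + 1 := ⟨k - 1, by omega⟩
  rw [Nat.add_sub_cancel] at h
  have hM2 : (M : ℤ) = (q : ℤ) ^ 2 + q + 1 := by
    rw [hM]
    push_cast
    ring
  have h' : 2 * (M : ℤ) + ((k : ℤ) + 1) * k ≤ 2 * (((k : ℤ) + 1) * G) := by exact_mod_cast h
  have hlt' : 2 * (G : ℤ) ≤ 3 * q := by
    have : 2 * G ≤ 3 * q := by omega
    exact_mod_cast this
  have hk' : (k : ℤ) + 1 ≤ q + 1 := by exact_mod_cast hk
  have hq' : (2 : ℤ) ≤ q := by exact_mod_cast hq
  have hk0 : (0 : ℤ) ≤ k := by positivity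
  rw [hM2] at h'
  nlinarith [mul_nonneg (by linarith : (0 : ℤ) ≤ (k : ℤ) + 1) (by linarith : (0 : ℤ) ≤ 3 * q - 2 * (G : ℤ)),
    mul_nonneg (by linarith : (0 : ℤ) ≤ (q : ℤ) - k) (by linarith : (0 : ℤ) ≤ 2 * (q : ℤ) - k)]

/-- **For every prime power `q` (the number of elements of the field `F`) and every generator of the
multiplicative group of the field with `q ^ 3` elements, all affine images of the Singer set have a
modular gap of length at least `(3 q + 1) / 2`.** -/
theorem result (F K : Type) [Field F] [Fintype F] [Field K] [Fintype K] [Algebra F K]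
    (hK : Fintype.card K = Fintype.card F ^ 3) (η : Kˣ)
    (hη : ∀ x : Kˣ, x ∈ Subgroup.zpowers η) :
    3 * Fintype.card F + 1 ≤ 2 * gstar (Singer F K η) := by
  have hmem : gstar (Singer F K η) ∈ {n : ℕ | ∃ (d : (ZMod (Fintype.card F ^ 2 + Fintype.card F + 1))ˣ)
      (s : ZMod (Fintype.card F ^ 2 + Fintype.card F + 1)),
        n = g ((fun x => (d : ZMod _) * x + s) '' Singer F K η)} :=
    Nat.sInf_mem ⟨_, 1, 0, rfl⟩
  obtain ⟨d, s, e⟩ := hmem
  rw [e]
  refine bound _ ((singer_nonempty F K η).image _) ?_ (Fintype.card F) Fintype.one_lt_card rfl ?_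
  · rintro _ ⟨a, ha, rfl⟩ _ ⟨b, hb, rfl⟩ _ ⟨c, hc, rfl⟩ _ ⟨e, he, rfl⟩ h
    simp only at h ⊢
    have h1 : a + b = c + e := by
      apply d.isUnit.mul_left_cancel
      linear_combination h
    rcases singer_sidon F K η hK hη a ha b hb c hc e he h1 with h2 | h2
    · left; rw [h2]
    · right; rw [h2]
  · rw [Set.toFinset_image]
    exact Finset.card_image_le.trans (singer_card F K η hK hη)

end Pool.Agent.Results.MP_dc0ef5_nt.SingerGap
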